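import Mathlib

set_option autoImplicit false

namespace Pool.Agent.Results.MP_207d4d_co.Counter

open Finset

/-- A finite graph on `n` vertices with loops and multiple edges allowed: `mult u v` is the number
of edges between `u` and `v` (loops when `u = v`). -/
structure MG (n : ℕ) where
  mult : Fin n → Fin n → ℕ
  symm : ∀ u v, mult u v = mult v u

/-- `H` is isomorphic to an induced subgraph of `G`. -/
def Le {a b : ℕ} (H : MG a) (G : MG b) : Prop :=
  ∃ f : Fin a ↪ Fin b, ∀ u v, G.mult (f u) (f v) = H.mult u v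

/-- Isomorphism of graphs on `n` vertices. -/
def Iso {n : ℕ} (H G : MG n) : Prop :=
  ∃ e : Fin n ≃ Fin n, ∀ u v, G.mult (e u) (e v) = H.mult u v

/-- Connectedness. -/
def Conn {n : ℕ} (G : MG n) : Prop :=
  0 < n ∧ ∀ u v, Relation.ReflTransGen (fun x y => 0 < G.mult x y) u v

/-- The number of isomorphism classes of graphs `K` with `|H| + k` vertices and `H ≤ K ≤ G`. -/
noncomputable def rank {a b : ℕ} (H : MG a) (G : MG b) (k : ℕ) : ℕ :=
  Set.ncard (Quot.mk Iso '' {K : MG (a + k) | Le H K ∧ Le K G})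

/-- The same count for connected graphs `K`. -/
noncomputable def rankC {a b : ℕ} (H : MG a) (G : MG b) (k : ℕ) : ℕ :=
  Set.ncard (Quot.mk Iso '' {K : MG (a + k) | Conn K ∧ Le H K ∧ Le K G})

def col (i : Fin 24) : Fin 4 := if i < 8 then 0 else if i < 16 then 1 else if i < 20 then 2 else 3

def pull {n : ℕ} (f : Fin n → Fin 24) : MG n :=
  ⟨fun u v => if col (f u) = col (f v) then 0 else 1, fun u v => by simp only [eq_comm]⟩

def one : MG 1 := ⟨fun _ _ => 0, fun _ _ => rfl⟩

def emb (n : ℕ) (t : Fin 4 → ℕ) (i : Fin n) : Fin 24 :=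
  Fin.ofNat 24 (if i < t 0 then i else if i < t 0 + t 1 then 8 + i - t 0
    else if i < t 0 + t 1 + t 2 then 16 + i - (t 0 + t 1) else 20 + i - (t 0 + t 1 + t 2))

def parts (n : ℕ) : List (Fin 4 → ℕ) :=
  (List.range 9).flatMap fun a => (List.range (a + 1)).flatMap fun b =>
    (List.range (min b 4 + 1)).flatMap fun c =>
      ((List.range (c + 1)).filter fun d => a + b + c + d = n).map fun d => ![a, b, c, d]

def invt {n : ℕ} (K : MG n) : ℕ := ∑ u, 20 ^ ∑ v, K.mult u v

theorem invt_iso {n : ℕ} (H K : MG n) (h : Iso H K) : invt H = invt K := by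
  obtain ⟨e, he⟩ := h
  rw [invt, invt, ← e.sum_comp fun u => 20 ^ ∑ v, K.mult u v]
  refine sum_congr rfl fun u _ => ?_
  rw [← e.sum_comp fun v => K.mult (e u) v]
  simp only [he]

theorem eq_pull {n : ℕ} (K : MG n) (f : Fin n → Fin 24)
    (h : ∀ u v, (pull id).mult (f u) (f v) = K.mult u v) : K = pull f := by
  cases K
  simp only [pull, MG.mk.injEq, id] at h ⊢
  ext u v
  exact (h u v).symm

theorem fin (n : ℕ) :
    (Quot.mk Iso '' {K : MG (1 + n) | Le one K ∧ Le K (pull id)}).Finite := by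
  refine (Set.finite_range fun f : Fin (1 + n) → Fin 24 => Quot.mk Iso (pull f)).subset ?_
  rintro _ ⟨K, ⟨-, f, hf⟩, rfl⟩
  exact ⟨f, by rw [eq_pull K f hf]⟩

theorem le_rank (n : ℕ) : rankC one (pull id) n ≤ rank one (pull id) n :=
  Set.ncard_le_ncard (Set.image_mono fun _ h => h.2) (fin n)

theorem conn {n : ℕ} (hn : 0 < n) (K : MG n)
    (h : ∀ u v, 0 < K.mult u v ∨ ∃ w, 0 < K.mult u w ∧ 0 < K.mult w v) : Conn K :=
  ⟨hn, fun u v => (h u v).elim (fun h1 => .single h1) fun ⟨w, h1, h2⟩ =>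
    .tail (b := w) (.single h1) h2⟩

theorem lower (n : ℕ)
    (h1 : ∀ t ∈ parts (1 + n), Function.Injective (emb (1 + n) t) ∧
      ∀ u v, 0 < (pull (emb (1 + n) t)).mult u v ∨
        ∃ w, 0 < (pull (emb (1 + n) t)).mult u w ∧ 0 < (pull (emb (1 + n) t)).mult w v)
    (h2 : ((parts (1 + n)).map fun t => invt (pull (emb (1 + n) t))).toFinset.card = 31) :
    31 ≤ rankC one (pull id) n := by
  rw [← h2, ← Set.ncard_coe_finset]
  refine le_trans (Set.ncard_le_ncard ?_ (((fin n).subset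
    (Set.image_mono fun _ h => h.2)).image (Quot.lift invt invt_iso)))
    (Set.ncard_image_le ((fin n).subset (Set.image_mono fun _ h => h.2)))
  intro x hx
  obtain ⟨t, ht, rfl⟩ := List.mem_map.1 (List.mem_toFinset.1 hx)
  exact ⟨_, ⟨_, ⟨conn (by omega) _ (h1 t ht).2, ⟨⟨fun _ => ⟨0, by omega⟩, fun _ _ _ =>
    Subsingleton.elim _ _⟩, fun _ _ => if_pos rfl⟩, ⟨_, (h1 t ht).1⟩, fun _ _ => rfl⟩, rfl⟩, rfl⟩

theorem upper : rank one (pull id) 14 ≤ 30 := by
  have h1 : ∀ t ∈ parts 15, ∀ j, (univ.filter fun i => col (emb 15 t i) = j).card = t j := by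
    decide +kernel
  have h2 : ∀ a ∈ range 9, ∀ b ∈ range 9, ∀ c ∈ range 5, ∀ d ∈ range 5, a + b + c + d = 15 →
      ∃ t ∈ parts 15, ∃ p : Equiv.Perm (Fin 4), (t (p 0), t (p 1), t (p 2), t (p 3)) =
        (a, b, c, d) := by decide +kernel
  have h3 : ∀ j, (univ.filter fun i => col i = j).card = ![8, 8, 4, 4] j := by decide +kernel
  classical
  refine le_trans (Set.ncard_le_ncard (t := ((parts 15).map fun t =>
    Quot.mk Iso (pull (emb 15 t))).toFinset) ?_ (finite_toSet _)) ?_
  · rintro _ ⟨K, ⟨-, f, hf⟩, rfl⟩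
    have hs : ∀ j, (univ.filter fun i => col (f i) = j).card ≤ ![8, 8, 4, 4] j := fun j => by
      rw [← h3]
      exact card_le_card_of_injOn f (fun i hi => by simpa using hi) f.injective.injOn
    have hsum := card_eq_sum_card_fiberwise (f := fun i => col (f i)) (s := univ) (t := univ)
      fun _ _ => mem_univ _
    rw [Fin.sum_univ_four, card_univ, Fintype.card_fin] at hsum
    obtain ⟨t, ht, p, hp⟩ := h2 _ (mem_range_succ_iff.2 (hs 0)) _ (mem_range_succ_iff.2 (hs 1)) _
      (mem_range_succ_iff.2 (hs 2)) _ (mem_range_succ_iff.2 (hs 3)) hsum.symm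
    simp only [Prod.mk.injEq] at hp
    have hc : ∀ j, Fintype.card {i // col (f i) = j} =
        Fintype.card {i // p.symm (col (emb 15 t i)) = j} := fun j => by
      simp only [Fintype.card_subtype, Equiv.symm_apply_eq, h1 t ht]
      fin_cases j
      exacts [hp.1.symm, hp.2.1.symm, hp.2.2.1.symm, hp.2.2.2.symm]
    obtain ⟨e, he⟩ : ∃ e : Fin 15 ≃ Fin 15, ∀ i, p.symm (col (emb 15 t (e i))) = col (f i) :=
      ⟨_, Equiv.ofFiberEquiv_map fun j => Fintype.equivOfCardEq (hc j)⟩
    refine List.mem_toFinset.2 (List.mem_map.2 ⟨t, ht, (Quot.sound ⟨e, fun u v => ?_⟩).symm⟩)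
    rw [eq_pull K f hf]
    simp only [pull, ← he, p.symm.injective.eq_iff]
  · rw [Set.ncard_coe_finset]
    refine (List.toFinset_card_le _).trans ?_
    rw [List.length_map]
    decide +kernel

theorem result : ∃ (a b : ℕ) (H : MG a) (G : MG b), Conn H ∧ Conn G ∧ Le H G ∧
    ∃ i j k : ℕ, i < j ∧ j < k ∧ k ≤ b - a ∧
      rank H G j < rank H G i ∧ rank H G j < rank H G k ∧
      rankC H G j < rankC H G i ∧ rankC H G j < rankC H G k := by
  have h1 := lower 13 (by decide +kernel) (by decide +kernel)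
  have h2 := lower 15 (by decide +kernel) (by decide +kernel)
  have h3 := upper
  have := le_rank 13
  have := le_rank 14
  have := le_rank 15
  refine ⟨1, 24, one, pull id, ⟨one_pos, fun u v => Subsingleton.elim u v ▸ .refl⟩,
    conn (by norm_num) _ (by decide +kernel), ⟨⟨fun _ => 0, fun _ _ _ => Subsingleton.elim _ _⟩,
      fun _ _ => rfl⟩, 13, 14, 15, ?_⟩
  omega

end Pool.Agent.Results.MP_207d4d_co.Counter
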